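import Pool.Agent.N931.PN.Stm3

/-!
Project PN (helper931), part LOW: lower bounds for the covariance and for the distance.
Author: helper160.
-/

set_option autoImplicit false

namespace Pool.Agent.N160.PN.LOW

open H974 H12S H389NS H984N H984P H342P Finset
open Pool.Agent.N116.EW
open H342L (cdist Curve)
open Pool.Agent.N931.PN

theorem exp_le {y : ℝ} (h0 : 0 ≤ y) (h1 : y ≤ 1 / 2) : Real.exp (-(2 * y)) ≤ 1 - y := by
  rw [Real.exp_neg]
  have h2 : 1 + 2 * y ≤ Real.exp (2 * y) := by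
    have := Real.add_one_le_exp (2 * y); linarith
  have h3 : (Real.exp (2 * y))⁻¹ ≤ (1 + 2 * y)⁻¹ := inv_anti₀ (by linarith) h2
  refine h3.trans ?_
  rw [inv_le_iff_one_le_mul₀ (by linarith)]
  nlinarith

theorem pow_le {e y : ℝ} {M : ℕ} (he1 : e ≤ 1) (hy : 0 ≤ y) (hy1 : y ≤ 1 / 2)
    (hM : 2 * y ≤ M * e) : (1 - e) ^ M ≤ 1 - y := by
  have h1 : (1 - e) ^ M ≤ Real.exp (-(M * e)) := by
    have h2 : 1 - e ≤ Real.exp (-e) := by
      have := Real.add_one_le_exp (-e); linarith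
    calc (1 - e) ^ M ≤ (Real.exp (-e)) ^ M := pow_le_pow_left₀ (by linarith) h2 M
      _ = Real.exp (-(M * e)) := by rw [← Real.exp_nat_mul]; congr 1; ring
  refine h1.trans ((Real.exp_le_exp.2 ?_).trans (exp_le hy hy1))
  linarith

theorem core_a {W : ℝ → ℝ}
    (hm : ∀ x y, 0 ≤ x → x ≤ y → W x ≤ W y)
    (hp : ∀ (x : ℝ) (M : ℕ), 0 ≤ x → x ≤ 1 → 1 ≤ M → (W x) ^ M ≤ W (x ^ M) * (W 1) ^ (M - 1))
    {v e0 : ℝ} (hv : 0 < v) (hv1 : v ≤ W 1) (he0 : 0 < e0) (he1 : e0 ≤ 1)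
    (hW : W 1 - v / 2 ≤ W (1 - e0)) {e : ℝ} (h : 0 ≤ e) (h' : e ≤ 1 / 2) :
    v / 2 * Real.exp (-(2 / e0 * e)) ≤ W (1 - e) := by
  have hW2 : W 1 / 2 ≤ W (1 - e0) := by linarith
  rcases le_total e e0 with h1 | h1
  · have h2 : W (1 - e0) ≤ W (1 - e) := hm _ _ (by linarith) (by linarith)
    have h3 : Real.exp (-(2 / e0 * e)) ≤ 1 := by
      rw [Real.exp_le_one_iff]
      have : 0 ≤ 2 / e0 * e := by positivity
      linarith
    nlinarith
  · have hepos : 0 < e := lt_of_lt_of_le he0 h1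
    obtain ⟨M, hM⟩ : ∃ M : ℕ, M = ⌈2 * e / e0⌉₊ := ⟨_, rfl⟩
    have hM1 : 2 * e / e0 ≤ M := hM ▸ Nat.le_ceil _
    have hM2 : (M : ℝ) < 2 * e / e0 + 1 := hM ▸ Nat.ceil_lt_add_one (by positivity)
    have hM0 : 1 ≤ M := by
      rw [hM, Nat.one_le_ceil_iff]; positivity
    have h2 : (1 - e0) ^ M ≤ 1 - e := by
      apply pow_le he1 h h'
      rw [div_le_iff₀ he0] at hM1
      exact hM1
    have h3 : W ((1 - e0) ^ M) ≤ W (1 - e) := hm _ _ (pow_nonneg (by linarith) _) h2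
    refine le_trans ?_ h3
    have h4 := hp (1 - e0) M (by linarith) (by linarith) hM0
    have hW1 : 0 < W 1 := lt_of_lt_of_le hv hv1
    have h5 : (W 1 / 2) ^ M ≤ (W (1 - e0)) ^ M := pow_le_pow_left₀ (by linarith) hW2 M
    have h6 : (W 1 / 2) ^ M = (W 1 / 2 ^ M) * (W 1) ^ (M - 1) := by
      rw [div_pow]
      obtain ⟨k, rfl⟩ : ∃ k, M = k + 1 := ⟨M - 1, by omega⟩
      rw [Nat.add_sub_cancel, pow_succ (W 1) k]
      ring
    have h7 : W 1 / 2 ^ M ≤ W ((1 - e0) ^ M) := by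
      have h8 : (W 1 / 2 ^ M) * (W 1) ^ (M - 1) ≤ W ((1 - e0) ^ M) * (W 1) ^ (M - 1) := by
        rw [← h6]; exact h5.trans h4
      exact le_of_mul_le_mul_right h8 (by positivity)
    refine le_trans ?_ h7
    have h9 : Real.exp (-(2 / e0 * e)) / 2 ≤ 1 / 2 ^ M := by
      have h10 : (2 : ℝ) ^ M ≤ 2 * Real.exp (2 / e0 * e) := by
        obtain ⟨k, rfl⟩ : ∃ k, M = k + 1 := ⟨M - 1, by omega⟩
        have h11 : (k : ℝ) ≤ 2 / e0 * e := by
          push_cast at hM2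
          have : 2 * e / e0 = 2 / e0 * e := by ring
          linarith
        have h12 : (2 : ℝ) ^ k ≤ Real.exp k := by
          have h13 : (2 : ℝ) ≤ Real.exp 1 := by
            have := Real.add_one_le_exp (1 : ℝ); linarith
          calc (2 : ℝ) ^ k ≤ (Real.exp 1) ^ k := pow_le_pow_left₀ (by norm_num) h13 k
            _ = Real.exp k := by rw [← Real.exp_nat_mul, mul_one]
        rw [pow_succ]
        have h14 : Real.exp k ≤ Real.exp (2 / e0 * e) := Real.exp_le_exp.2 h11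
        linarith
      rw [Real.exp_neg, div_le_div_iff₀ (by norm_num) (by positivity), one_mul, mul_comm,
        mul_inv_le_iff₀ (Real.exp_pos _)]
      exact h10
    calc v / 2 * Real.exp (-(2 / e0 * e)) = v * (Real.exp (-(2 / e0 * e)) / 2) := by ring
      _ ≤ W 1 * (1 / 2 ^ M) := mul_le_mul hv1 h9 (by positivity) hW1.le
      _ = W 1 / 2 ^ M := by ring

theorem core_b {W : ℝ → ℝ} (hm : ∀ x y, 0 ≤ x → x ≤ y → W x ≤ W y)
    (hp : ∀ (x : ℝ) (M : ℕ), 0 ≤ x → x ≤ 1 → 1 ≤ M → W 1 - W (x ^ M) ≤ M * (W 1 - W x))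
    {v y : ℝ} (hv : 0 < v) (hv1 : v ≤ W 1) (hy : 0 < y) (hy1 : y ≤ 1 / 2)
    (hW : ∀ e, 0 < e → e ≤ 1 → y ≤ e → W (1 - e) ≤ v / 2) {e : ℝ} (h : 0 ≤ e) (h' : e ≤ 1) :
    min (v / 2) (v / 6 * (e / y)) ≤ W 1 - W (1 - e) := by
  rcases le_or_gt y e with h1 | h1
  · refine (min_le_left _ _).trans ?_
    have := hW e (lt_of_lt_of_le hy h1) h' h1
    linarith
  rcases h.eq_or_lt with h2 | h2
  · refine (min_le_right _ _).trans ?_
    rw [← h2]; simp
  refine (min_le_right _ _).trans ?_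
  obtain ⟨M, hM⟩ : ∃ M : ℕ, M = ⌈2 * y / e⌉₊ := ⟨_, rfl⟩
  have hM1 : 2 * y / e ≤ M := hM ▸ Nat.le_ceil _
  have hM2 : (M : ℝ) < 2 * y / e + 1 := hM ▸ Nat.ceil_lt_add_one (by positivity)
  have hM0 : 1 ≤ M := by
    rw [hM, Nat.one_le_ceil_iff]; positivity
  have h3 : (1 - e) ^ M ≤ 1 - y := by
    apply pow_le h' hy.le hy1
    rwa [div_le_iff₀ h2] at hM1
  have h4 : 0 ≤ (1 - e) ^ M := pow_nonneg (by linarith) _
  have h5 := hW (1 - (1 - e) ^ M) (by linarith) (by linarith) (by linarith)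
  rw [sub_sub_cancel] at h5
  have h6 := hp (1 - e) M (by linarith) (by linarith) hM0
  have h7 : 0 ≤ W 1 - W (1 - e) := by
    have := hm (1 - e) 1 (by linarith) (by linarith); linarith
  have h8 : (M : ℝ) ≤ 3 * y / e := by
    have h9 : 1 ≤ y / e := by rw [le_div_iff₀ h2]; linarith
    have h10 : 3 * y / e = 2 * y / e + y / e := by ring
    linarith
  have h11 : v / 2 ≤ 3 * y / e * (W 1 - W (1 - e)) := by
    have := mul_le_mul_of_nonneg_right h8 h7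
    linarith
  have h12 : v / 6 * (e / y) = v / 2 / (3 * y / e) := by
    field_simp; norm_num
  rw [h12, div_le_iff₀ (by positivity)]
  linarith

theorem WT_mono (S : Finset Edg) (h : Finset Edg → ℝ) {x y : ℝ} (hx : 0 ≤ x) (hxy : x ≤ y) :
    WT S h x ≤ WT S h y := by
  unfold WT
  exact sum_le_sum fun T _ =>
    mul_le_mul_of_nonneg_left (pow_le_pow_left₀ hx hxy _) (sq_nonneg _)

theorem E2_const (ρ : Edg → ℝ) (S : Finset Edg) (c : ℝ) : E2 ρ S (fun _ _ => c) = c := by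
  rw [A6_left ρ S (fun _ => c)]
  exact Ex_const hp S c

theorem E2_mul (ρ : Edg → ℝ) (S : Finset Edg) (c : ℝ) (h : Finset Edg → Finset Edg → ℝ) :
    E2 ρ S (fun F F' => c * h F F') = c * E2 ρ S h := by
  unfold E2
  rw [Finset.mul_sum]
  refine sum_congr rfl fun F _ => ?_
  rw [Finset.mul_sum]
  refine sum_congr rfl fun F' _ => ?_
  ring

/-- The distance of two values of a Lipschitz function. -/
theorem sq_le {f : Curve → ℝ} (hf : Lp f) (γ γ' : Curve) {r : ℝ} (hr : 0 < r) :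
    (f γ - f γ') ^ 2 ≤ r ^ 2 + 4 * ind (r < cdist γ.path γ'.path) := by
  by_cases h : r < cdist γ.path γ'.path
  · rw [ind_of h]
    have h1 := abs_le.1 (hf.2 γ)
    have h2 := abs_le.1 (hf.2 γ')
    nlinarith
  · rw [ind_not_of h]
    have h1 := hf.1 γ γ'
    rw [H342L.Curve.dist_def] at h1
    have h2 : |f γ - f γ'| ≤ r := h1.trans (not_lt.1 h)
    have h3 := sq_le_sq' (by linarith [(abs_le.1 h2).1]) (abs_le.1 h2).2
    linarith

theorem main : S_VAR → S_WALL → S_STB → S_COV → S_CVX → S_LOW := by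
  intro hVAR hWALL hSTB hCOV hCVX R
  obtain ⟨f, hf, v, d1, hv, hd1, hV⟩ := hVAR R
  obtain ⟨C2, c2, d2, hC2, hc2, hd2, hW⟩ := hWALL R
  obtain ⟨C3, d3, hC3, hd3, hS⟩ := hSTB R
  refine ⟨f, hf, ?_⟩
  -- the constants
  obtain ⟨r, hr, hr2⟩ : ∃ r : ℝ, 0 < r ∧ r ^ 2 = v / 2 :=
    ⟨Real.sqrt (v / 2), Real.sqrt_pos.2 (by positivity), Real.sq_sqrt (by positivity)⟩
  have hrp : 0 < r ^ (-(5 / 4) : ℝ) := Real.rpow_pos_of_pos hr _
  obtain ⟨lam, hlam, hlam1, hlam2⟩ : ∃ lam : ℝ, 0 < lam ∧ lam ≤ 1 ∧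
      4 * (C3 * (lam * r ^ (-(5 / 4) : ℝ))) ≤ v / 2 := by
    refine ⟨min 1 (v / (8 * (C3 * r ^ (-(5 / 4) : ℝ)))), lt_min one_pos (by positivity),
      min_le_left _ _, ?_⟩
    have h1 : min 1 (v / (8 * (C3 * r ^ (-(5 / 4) : ℝ)))) ≤
      v / (8 * (C3 * r ^ (-(5 / 4) : ℝ))) := min_le_right _ _
    rw [le_div_iff₀ (by positivity)] at h1
    nlinarith
  obtain ⟨Lam, hLam, hLam1⟩ : ∃ Lam : ℝ, 0 < Lam ∧ ∀ y, Lam ≤ y → C2 * y ^ (-c2) ≤ v / 2 := by
    refine ⟨(v / (2 * C2)) ^ (-(1 / c2)), Real.rpow_pos_of_pos (by positivity) _, ?_⟩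
    intro y hy
    have h1 : 0 < (v / (2 * C2)) ^ (-(1 / c2)) := Real.rpow_pos_of_pos (by positivity) _
    have h2 : y ^ (-c2) ≤ ((v / (2 * C2)) ^ (-(1 / c2))) ^ (-c2) :=
      Real.rpow_le_rpow_of_nonpos h1 hy (by linarith)
    rw [← Real.rpow_mul (by positivity)] at h2
    have h3 : -(1 / c2) * -c2 = 1 := by field_simp
    rw [h3, Real.rpow_one] at h2
    calc C2 * y ^ (-c2) ≤ C2 * (v / (2 * C2)) := mul_le_mul_of_nonneg_left h2 hC2.le
      _ = v / 2 := by field_simp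
  obtain ⟨d4, hd4, hd4'⟩ : ∃ d4 : ℝ, 0 < d4 ∧ ∀ δ : ℝ, 0 < δ → δ ≤ d4 →
      Lam * δ ^ (3 / 4 : ℝ) ≤ 1 / 2 := by
    refine ⟨(1 / (2 * Lam)) ^ (4 / 3 : ℝ), Real.rpow_pos_of_pos (by positivity) _, ?_⟩
    intro δ h0 h1
    have h2 := Real.rpow_le_rpow h0.le h1 (by norm_num : (0 : ℝ) ≤ 3 / 4)
    rw [← Real.rpow_mul (by positivity)] at h2
    have h3 : (4 / 3 : ℝ) * (3 / 4) = 1 := by norm_num
    rw [h3, Real.rpow_one] at h2
    calc Lam * δ ^ (3 / 4 : ℝ) ≤ Lam * (1 / (2 * Lam)) := mul_le_mul_of_nonneg_left h2 hLam.le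
      _ = 1 / 2 := by field_simp
  refine ⟨min (v / 2) (v / (3 * Lam)), 2 / lam, min (min d1 d2) (min d3 (min d4 1)),
    lt_min (by positivity) (by positivity), by positivity,
    lt_min (lt_min hd1 hd2) (lt_min hd3 (lt_min hd4 one_pos)), ?_⟩
  intro δ ε hδ hδ1 hε hε1
  have e1 : δ ≤ d1 := hδ1.trans ((min_le_left _ _).trans (min_le_left _ _))
  have e2 : δ ≤ d2 := hδ1.trans ((min_le_left _ _).trans (min_le_right _ _))
  have e3 : δ ≤ d3 := hδ1.trans ((min_le_right _ _).trans (min_le_left _ _))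
  have e4 : δ ≤ d4 := hδ1.trans ((min_le_right _ _).trans ((min_le_right _ _).trans
    (min_le_left _ _)))
  have e5 : δ ≤ 1 := hδ1.trans ((min_le_right _ _).trans ((min_le_right _ _).trans
    (min_le_right _ _)))
  have hp1 : 0 < δ ^ (3 / 4 : ℝ) := Real.rpow_pos_of_pos hδ _
  have hp2 : δ ^ (3 / 4 : ℝ) ≤ 1 := Real.rpow_le_one hδ.le e5 (by norm_num)
  have hp3 : δ ^ (-(3 / 4) : ℝ) = (δ ^ (3 / 4 : ℝ))⁻¹ := Real.rpow_neg hδ.le _
  have hp4 : 0 < δ ^ (-(3 / 4) : ℝ) := Real.rpow_pos_of_pos hδ _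
  have hv1 : v ≤ WT (R.dm δ).edges (Pool.Agent.N931.PN.hf R δ f) 1 := by
    rw [(hCOV (R.dm δ).edges (Pool.Agent.N931.PN.hf R δ f) (Pool.Agent.N931.PN.hf R δ f) 1 zero_le_one le_rfl).2.2.1]
    exact hV δ hδ e1
  have hmono : ∀ x y : ℝ, 0 ≤ x → x ≤ y → WT (R.dm δ).edges (Pool.Agent.N931.PN.hf R δ f) x ≤
      WT (R.dm δ).edges (Pool.Agent.N931.PN.hf R δ f) y := fun x y hx hxy => WT_mono _ _ hx hxy
  have hE : ∀ e : ℝ, 0 ≤ e → e ≤ 1 → E2 (fun _ => 1 - e) (R.dm δ).edges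
      (fun F F' => (Pool.Agent.N931.PN.hf R δ f F - Pool.Agent.N931.PN.hf R δ f F') ^ 2) =
        2 * (WT (R.dm δ).edges (Pool.Agent.N931.PN.hf R δ f) 1 - WT (R.dm δ).edges (Pool.Agent.N931.PN.hf R δ f) (1 - e)) :=
    fun e h0 h1 => (hCOV (R.dm δ).edges (Pool.Agent.N931.PN.hf R δ f) (Pool.Agent.N931.PN.hf R δ f) (1 - e) (by linarith)
      (by linarith)).2.2.2
  constructor
  · intro hε2
    have hcore := core_a hmono (fun x M hx hx1 hM => (hCVX (R.dm δ).edges (Pool.Agent.N931.PN.hf R δ f) x M hx hx1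
      hM).1) hv hv1 (e0 := lam * δ ^ (3 / 4 : ℝ)) (by positivity)
      (mul_le_one₀ hlam1 hp1.le hp2) ?_ hε hε2
    · refine le_trans ?_ hcore
      have h1 : 2 / lam * (ε * δ ^ (-(3 / 4) : ℝ)) = 2 / (lam * δ ^ (3 / 4 : ℝ)) * ε := by
        rw [hp3]; field_simp
      rw [h1]
      exact mul_le_mul_of_nonneg_right (min_le_left _ _) (Real.exp_pos _).le
    · have hb : lam * δ ^ (3 / 4 : ℝ) ≤ 1 := mul_le_one₀ hlam1 hp1.le hp2
      have hb0 : 0 ≤ lam * δ ^ (3 / 4 : ℝ) := by positivity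
      have h1 := hE (lam * δ ^ (3 / 4 : ℝ)) hb0 hb
      have h2 := hS δ (lam * δ ^ (3 / 4 : ℝ)) r hδ e3 hb0 hb hr
      have h3 : E2 (fun _ => 1 - lam * δ ^ (3 / 4 : ℝ)) (R.dm δ).edges
          (fun F F' => (Pool.Agent.N931.PN.hf R δ f F - Pool.Agent.N931.PN.hf R δ f F') ^ 2) ≤
            E2 (fun _ => 1 - lam * δ ^ (3 / 4 : ℝ)) (R.dm δ).edges
              (fun F F' => r ^ 2 + 4 * ind (r < cdist (R.curve δ F) (R.curve δ F'))) := by
        apply E2_mono (fun _ _ => ⟨by linarith, by linarith⟩)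
        intro F F' _ _
        exact sq_le hf ⟨R.curve δ F⟩ ⟨R.curve δ F'⟩ hr
      rw [A6_add, E2_const, E2_mul] at h3
      have h4 : lam * δ ^ (3 / 4 : ℝ) * δ ^ (-(3 / 4) : ℝ) = lam := by
        rw [hp3]; field_simp
      rw [h4] at h2
      linarith
  · have hy : 0 < Lam * δ ^ (3 / 4 : ℝ) := by positivity
    have hcore := core_b hmono (fun x M hx hx1 hM => (hCVX (R.dm δ).edges (Pool.Agent.N931.PN.hf R δ f) x M hx hx1
      hM).2) hv hv1 hy (hd4' δ hδ e4) ?_ hε hε1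
    · rw [hE ε hε hε1]
      have h1 : ε / (Lam * δ ^ (3 / 4 : ℝ)) = (ε * δ ^ (-(3 / 4) : ℝ)) / Lam := by
        rw [hp3]; field_simp
      rw [h1] at hcore
      have hq : 0 ≤ ε * δ ^ (-(3 / 4) : ℝ) := by positivity
      have h2 : min (v / 2) (v / (3 * Lam)) * min 1 (ε * δ ^ (-(3 / 4) : ℝ)) ≤
          2 * min (v / 2) (v / 6 * (ε * δ ^ (-(3 / 4) : ℝ) / Lam)) := by
        have h3 : min (v / 2) (v / (3 * Lam)) ≤ v / 2 := min_le_left _ _
        have h4 : min (v / 2) (v / (3 * Lam)) ≤ v / (3 * Lam) := min_le_right _ _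
        have h5 : 0 < min (v / 2) (v / (3 * Lam)) := lt_min (by positivity) (by positivity)
        have h6 : 0 ≤ min 1 (ε * δ ^ (-(3 / 4) : ℝ)) := le_min zero_le_one hq
        rcases le_total (v / 2) (v / 6 * (ε * δ ^ (-(3 / 4) : ℝ) / Lam)) with h7 | h7
        · rw [min_eq_left h7]
          have h8 : min (v / 2) (v / (3 * Lam)) * min 1 (ε * δ ^ (-(3 / 4) : ℝ)) ≤ v / 2 * 1 :=
            mul_le_mul h3 (min_le_left _ _) h6 (by positivity)
          linarith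
        · rw [min_eq_right h7]
          have h8 : min (v / 2) (v / (3 * Lam)) * min 1 (ε * δ ^ (-(3 / 4) : ℝ)) ≤
              v / (3 * Lam) * (ε * δ ^ (-(3 / 4) : ℝ)) :=
            mul_le_mul h4 (min_le_right _ _) h6 (by positivity)
          refine h8.trans (le_of_eq ?_)
          field_simp
          ring
      linarith
    · intro e he he1 hye
      have h1 := hW δ e hδ e2 he he1 f hf
      refine h1.trans (hLam1 _ ?_)
      rw [hp3, ← div_eq_mul_inv, le_div_iff₀ hp1]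
      exact hye

end Pool.Agent.N160.PN.LOW
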